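import Mathlib
import Pool.Agent.T2h11.TT.Fin

/-!
# MP_93437d_al: tensor-vanishing maps out of the unit in `D^b(C)`

Q1 has a positive answer. Let `C` be a finite symmetric tensor category, `f : 𝟙 ⟶ X` and
`g : 𝟙 ⟶ Y` maps in `D^b(C)` with `f ⊗ g = 0`. Then `f` or `g` is `⊗`-nilpotent on a nonzero
object, in fact `f ⊗ P = 0` or `g ⊗ P = 0` for a nonzero projective object `P` of `C`.

Proof. Let `X' = τ_{≥0} X` and `Y' = τ_{≥0} Y`. If `𝟙 ⟶ X ⟶ X'` is zero, then `f` factors through an
object `W ≤ -1`, so that `f ⊗ P` factors through `W ⊗ P ≤ -1`, and there are no nonzero maps from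
the projective object `P` to `W ⊗ P`. The same holds for `g`. Otherwise `𝟙 ⟶ X'` is a nonzero map
from a simple object of the heart to an object `≥ 0`, so that its cone `Q` is `≥ 0`, and
`Q ⊗ Y' ≥ 0`. Since `𝟙 ⟶ Y' ⟶ X' ⊗ Y'` is zero, the nonzero map `𝟙 ⟶ Y'` factors through the fibre
`(Q ⊗ Y')[-1] ≥ 1` of the second map, a contradiction.
-/

set_option autoImplicit false

open CategoryTheory CategoryTheory.Limits MonoidalCategory

namespace Pool.Agent.Results.MP_93437d_al.TensorVanishing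

open Pool.Agent.T2h11.TT

universe w v u w'

/-- Let `C` be a finite symmetric tensor category over a field `k`, and let `f : 𝟙 ⟶ X` and
`g : 𝟙 ⟶ Y` be maps in the tensor-triangulated category `D^b(C)` with `f ⊗ g = 0`. Then there is a
nonzero object `Z` of `D^b(C)` such that `f` is `⊗`-nilpotent on `Z` or `g` is `⊗`-nilpotent
on `Z`. -/
theorem result (k : Type w') [Field k] (C : Type u) [Category.{v} C] [Abelian C] [Linear k C]
    [MonoidalCategory C] [MonoidalPreadditive C] [MonoidalLinear k C] [SymmetricCategory C]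
    [RigidCategory C] (hC : IsFiniteTensorCategory k C) [HasDerivedCategory.{w} C]
    [MonoidalCategory (DerivedCategory.Bounded C)]
    [SymmetricCategory (DerivedCategory.Bounded C)] [TensorTriangulated C]
    (X Y : DerivedCategory.Bounded C) (f : 𝟙_ (DerivedCategory.Bounded C) ⟶ X)
    (g : 𝟙_ (DerivedCategory.Bounded C) ⟶ Y)
    (h : (λ_ (𝟙_ (DerivedCategory.Bounded C))).inv ≫ (f ⊗ₘ g) = 0) :
    ∃ Z : DerivedCategory.Bounded C, ¬ IsZero Z ∧ (NilpotentOn f Z ∨ NilpotentOn g Z) := by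
  have h1 := hC.artinian (𝟙_ C)
  have h2 := hC.enoughProjectives
  have hend : ∀ φ : 𝟙_ C ⟶ 𝟙_ C, φ ≠ 0 → IsIso φ := by
    intro φ hφ
    obtain ⟨c, hc⟩ := hC.end_unit.2 φ
    have hc0 : c ≠ 0 := by
      rintro rfl
      apply hφ
      rw [← hc]
      exact zero_smul k _
    refine ⟨c⁻¹ • 𝟙 (𝟙_ C), ?_, ?_⟩
    · rw [← hc]
      simp [Linear.comp_smul, smul_smul, hc0]
    · rw [← hc]
      simp [Linear.comp_smul, smul_smul, hc0]
  have h0 : ¬ IsZero (𝟙_ C) := by
    intro hz
    have h8 : (1 : k) = 0 := hC.end_unit.1 (hz.eq_of_src _ _)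
    exact one_ne_zero h8
  exact main C h0 hend f g h

end Pool.Agent.Results.MP_93437d_al.TensorVanishing
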